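import Pool.Agent.Lib.helper69.R3Valid

/-!
# Counting the lattice points of the planar set
-/

namespace Pool.R3

open Finset

lemma card_Icc_ge (lo hi : ℝ) : hi - lo - 1 ≤ ((Finset.Icc ⌈lo⌉ ⌊hi⌋).card : ℝ) := by
  rw [Int.card_Icc]
  have h1 : ((⌊hi⌋ + 1 - ⌈lo⌉ : ℤ) : ℝ) ≤ (((⌊hi⌋ + 1 - ⌈lo⌉).toNat : ℤ) : ℝ) := by
    exact_mod_cast Int.self_le_toNat _
  have h2 : (((⌊hi⌋ + 1 - ⌈lo⌉).toNat : ℤ) : ℝ) = (((⌊hi⌋ + 1 - ⌈lo⌉).toNat : ℕ) : ℝ) := by
    norm_cast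
  rw [← h2]
  refine le_trans ?_ h1
  push_cast
  have := Int.lt_floor_add_one hi
  have := Int.ceil_lt_add_one lo
  linarith

lemma tri_sum (c β : ℝ) (hc : 0 ≤ c) (hβ : 0 < β) (n : ℕ) :
    ∑ j ∈ range n, max (c - β * (j : ℝ)) 0 ≤ c + c ^ 2 / (2 * β) := by
  set g : ℕ → ℝ := fun j => max (c - β * (j : ℝ)) 0 with hg
  have h1 : ∀ j : ℕ, g (j + 1) ≤ (g j ^ 2 - g (j + 1) ^ 2) / (2 * β) := by
    intro j
    rw [le_div_iff₀ (by positivity)]
    simp only [hg]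
    push_cast
    rcases le_or_gt (c - β * ((j : ℝ) + 1)) 0 with h | h
    · rw [max_eq_right h]
      nlinarith [le_max_right (c - β * (j : ℝ)) 0]
    · rw [max_eq_left h.le, max_eq_left (by linarith)]
      nlinarith
  have h2 : ∑ j ∈ range n, g (j + 1) ≤ (g 0 ^ 2 - g n ^ 2) / (2 * β) := by
    induction n with
    | zero => simp
    | succ n ih =>
      rw [Finset.sum_range_succ]
      have := h1 n
      calc _ ≤ (g 0 ^ 2 - g n ^ 2) / (2 * β) + (g n ^ 2 - g (n + 1) ^ 2) / (2 * β) := by linarith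
        _ = _ := by ring
  have h3 : g 0 = c := by simp [hg, hc]
  have h4 : ∑ j ∈ range n, g j ≤ ∑ j ∈ range (n + 1), g j := by
    rw [Finset.sum_range_succ]
    have : 0 ≤ g n := le_max_right _ _
    linarith
  rw [Finset.sum_range_succ', h3] at h4
  have h5 : (g 0 ^ 2 - g n ^ 2) / (2 * β) ≤ c ^ 2 / (2 * β) := by
    rw [h3]
    apply div_le_div_of_nonneg_right _ (by positivity)
    nlinarith [sq_nonneg (g n)]
  linarith

/-- Reindexed version of `tri_sum`. -/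
lemma tri_sum' (A : Finset ℕ) (φ : ℕ → ℕ) (hφ : Set.InjOn φ A) (n : ℕ)
    (hn : ∀ X ∈ A, φ X < n) (F : ℕ → ℝ) (c β : ℝ) (hc : 0 ≤ c) (hβ : 0 < β)
    (hF : ∀ X ∈ A, F X ≤ c - β * (φ X : ℝ)) :
    ∑ X ∈ A, max (F X) 0 ≤ c + c ^ 2 / (2 * β) := by
  calc ∑ X ∈ A, max (F X) 0 ≤ ∑ X ∈ A, max (c - β * (φ X : ℝ)) 0 :=
        Finset.sum_le_sum (fun X hX => max_le_max (hF X hX) le_rfl)
    _ = ∑ j ∈ A.image φ, max (c - β * (j : ℝ)) 0 := by
        rw [Finset.sum_image (fun a ha b hb hab => hφ ha hb hab)]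
    _ ≤ ∑ j ∈ range n, max (c - β * (j : ℝ)) 0 := by
        apply Finset.sum_le_sum_of_subset_of_nonneg
        · intro j hj
          obtain ⟨X, hX, rfl⟩ := Finset.mem_image.1 hj
          exact mem_range.2 (hn X hX)
        · intro j _ _
          exact le_max_right _ _
    _ ≤ _ := tri_sum c β hc hβ n

section Fibres

variable (η : ℝ) (P X : ℕ)

noncomputable def loA : ℝ := -(3/56) * P - (69/112) * X
noncomputable def hiA : ℝ := min ((25/56) * (X : ℝ)) (P/2 - (3/56) * P - (69/112) * X - η * P)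
noncomputable def fibA : Finset ℤ := Finset.Icc ⌈loA P X⌉ ⌊hiA η P X⌋

noncomputable def loI : ℝ :=
  max (max (-(3/56) * P - (69/112) * X) (-(P : ℝ)/2 + (25/56) * ((X : ℝ) - P/2) + η * P))
    ((-(3/56) * P - (69/112) * ((X : ℝ) - P/2) + (25/56) * X) / 2 - P/2 + η * P)
noncomputable def hiI : ℝ := -(3/56) * P - (69/112) * ((X : ℝ) - P/2) - η * P
noncomputable def fibI : Finset ℤ := Finset.Icc ⌈loI η P X⌉ ⌊hiI η P X⌋

noncomputable def loJ : ℝ :=
  max ((25/56) * ((X : ℝ) - P/2) + η * P)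
    ((-(3/56) * P - (69/112) * ((X : ℝ) - P/2) + (25/56) * X) / 2 + η * P)
noncomputable def hiJ : ℝ :=
  min ((25/56) * (X : ℝ)) (P/2 - (3/56) * P - (69/112) * ((X : ℝ) - P/2) - η * P)
noncomputable def fibJ : Finset ℤ := Finset.Icc ⌈loJ η P X⌉ ⌊hiJ η P X⌋

lemma card_fibA (hη : 0 ≤ η) :
    (P : ℝ)/2 - η * P - max ((25/56) * (P : ℝ) - (17/16) * X) 0 - 1 ≤ ((fibA η P X).card : ℝ) := by
  refine le_trans ?_ (card_Icc_ge _ _)
  unfold hiA loA
  have h1 := le_max_left ((25/56) * (P : ℝ) - (17/16) * X) 0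
  have h2 := le_max_right ((25/56) * (P : ℝ) - (17/16) * X) 0
  have hP : (0 : ℝ) ≤ P := Nat.cast_nonneg P
  have hηP : 0 ≤ η * P := by positivity
  rcases min_choice ((25/56) * (X : ℝ)) (P/2 - (3/56) * P - (69/112) * X - η * P) with h | h
  · rw [h]; linarith
  · rw [h]; linarith

lemma card_fibIJ (hη : 0 ≤ η) :
    (P : ℝ)/2 - 4 * (η * P) - (1/2) * max ((3/28) * (P : ℝ) - (17/16) * ((X : ℝ) - P/2)) 0
      - max ((17/16) * ((X : ℝ) - P/2) - (19/112) * P) 0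
      - max ((17/16) * ((X : ℝ) - P/2) - (25/112) * P) 0 - 2
      ≤ ((fibI η P X).card : ℝ) + ((fibJ η P X).card : ℝ) := by
  have hI := card_Icc_ge (loI η P X) (hiI η P X)
  have hJ := card_Icc_ge (loJ η P X) (hiJ η P X)
  unfold fibI fibJ
  have key : (P : ℝ)/2 - 4 * (η * P)
      - (1/2) * max ((3/28) * (P : ℝ) - (17/16) * ((X : ℝ) - P/2)) 0
      - max ((17/16) * ((X : ℝ) - P/2) - (19/112) * P) 0
      - max ((17/16) * ((X : ℝ) - P/2) - (25/112) * P) 0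
      ≤ (hiI η P X - loI η P X) + (hiJ η P X - loJ η P X) := by
    have a1 := le_max_left ((3/28) * (P : ℝ) - (17/16) * ((X : ℝ) - P/2)) 0
    have a2 := le_max_right ((3/28) * (P : ℝ) - (17/16) * ((X : ℝ) - P/2)) 0
    have b1 := le_max_left ((17/16) * ((X : ℝ) - P/2) - (19/112) * P) 0
    have b2 := le_max_right ((17/16) * ((X : ℝ) - P/2) - (19/112) * P) 0
    have c1 := le_max_left ((17/16) * ((X : ℝ) - P/2) - (25/112) * P) 0
    have c2 := le_max_right ((17/16) * ((X : ℝ) - P/2) - (25/112) * P) 0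
    have hP : (0 : ℝ) ≤ P := Nat.cast_nonneg P
    have hηP : 0 ≤ η * P := by positivity
    unfold hiI loI hiJ loJ
    set u := max ((3/28) * (P : ℝ) - (17/16) * ((X : ℝ) - P/2)) 0
    set v := max ((17/16) * ((X : ℝ) - P/2) - (19/112) * P) 0
    set w := max ((17/16) * ((X : ℝ) - P/2) - (25/112) * P) 0
    rcases max_choice (max (-(3/56) * (P : ℝ) - (69/112) * X)
        (-(P : ℝ)/2 + (25/56) * ((X : ℝ) - P/2) + η * P))
        ((-(3/56) * (P : ℝ) - (69/112) * ((X : ℝ) - P/2) + (25/56) * X) / 2 - P/2 + η * P)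
      with h1 | h1 <;> rw [h1]
    · rcases max_choice (-(3/56) * (P : ℝ) - (69/112) * X)
        (-(P : ℝ)/2 + (25/56) * ((X : ℝ) - P/2) + η * P) with h2 | h2 <;> rw [h2]
      · rcases max_choice ((25/56) * ((X : ℝ) - P/2) + η * P)
          ((-(3/56) * (P : ℝ) - (69/112) * ((X : ℝ) - P/2) + (25/56) * X) / 2 + η * P)
          with h3 | h3 <;> rw [h3]
        · rcases min_choice ((25/56) * (X : ℝ))
            (P/2 - (3/56) * P - (69/112) * ((X : ℝ) - P/2) - η * P) with h4 | h4 <;> rw [h4] <;>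
            linarith
        · rcases min_choice ((25/56) * (X : ℝ))
            (P/2 - (3/56) * P - (69/112) * ((X : ℝ) - P/2) - η * P) with h4 | h4 <;> rw [h4] <;>
            linarith
      · rcases max_choice ((25/56) * ((X : ℝ) - P/2) + η * P)
          ((-(3/56) * (P : ℝ) - (69/112) * ((X : ℝ) - P/2) + (25/56) * X) / 2 + η * P)
          with h3 | h3 <;> rw [h3]
        · rcases min_choice ((25/56) * (X : ℝ))
            (P/2 - (3/56) * P - (69/112) * ((X : ℝ) - P/2) - η * P) with h4 | h4 <;> rw [h4] <;>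
            linarith
        · rcases min_choice ((25/56) * (X : ℝ))
            (P/2 - (3/56) * P - (69/112) * ((X : ℝ) - P/2) - η * P) with h4 | h4 <;> rw [h4] <;>
            linarith
    · rcases max_choice ((25/56) * ((X : ℝ) - P/2) + η * P)
          ((-(3/56) * (P : ℝ) - (69/112) * ((X : ℝ) - P/2) + (25/56) * X) / 2 + η * P)
          with h3 | h3 <;> rw [h3]
      · rcases min_choice ((25/56) * (X : ℝ))
            (P/2 - (3/56) * P - (69/112) * ((X : ℝ) - P/2) - η * P) with h4 | h4 <;> rw [h4] <;>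
            linarith
      · rcases min_choice ((25/56) * (X : ℝ))
            (P/2 - (3/56) * P - (69/112) * ((X : ℝ) - P/2) - η * P) with h4 | h4 <;> rw [h4] <;>
            linarith
  linarith

variable {η P X}

lemma mem_fibA {Y : ℤ} (hP : 0 < P) (hX : (X : ℝ) ≤ (1/2 - η) * P)
    (hY : Y ∈ fibA η P X) : InS η ((X : ℝ) / P) ((Y : ℝ) / P) := by
  have hPR : (0 : ℝ) < P := by exact_mod_cast hP
  obtain ⟨h1, h2⟩ := Finset.mem_Icc.1 hY
  have h1' := Int.ceil_le.1 h1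
  have h2' := Int.le_floor.1 h2
  unfold loA at h1'
  unfold hiA at h2'
  obtain ⟨h3, h4⟩ := le_min_iff.1 h2'
  obtain ⟨x, hx⟩ : ∃ x : ℝ, (X : ℝ) = x * P := ⟨X / P, by field_simp⟩
  obtain ⟨y, hy⟩ : ∃ y : ℝ, (Y : ℝ) = y * P := ⟨Y / P, by field_simp⟩
  rw [hx, hy, mul_div_cancel_right₀ _ hPR.ne', mul_div_cancel_right₀ _ hPR.ne']
  rw [hx] at hX h1' h3 h4
  rw [hy] at h1' h3 h4
  have hx0 : 0 ≤ x := by
    have : (0 : ℝ) ≤ x * P := by rw [← hx]; exact Nat.cast_nonneg X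
    exact nonneg_of_mul_nonneg_left this hPR
  refine ⟨⟨hx0, ?_, ?_⟩, Or.inl ⟨?_, ?_⟩⟩
  · exact le_of_mul_le_mul_right (by linarith) hPR
  · exact le_of_mul_le_mul_right (by linarith) hPR
  · exact le_of_mul_le_mul_right hX hPR
  · exact le_of_mul_le_mul_right (by linarith) hPR

lemma mem_fibI {Y : ℤ} (hP : 0 < P) (hη : 0 < η) (hX : (1/2 + η) * P ≤ (X : ℝ))
    (hY : Y ∈ fibI η P X) : InS η ((X : ℝ) / P) ((Y : ℝ) / P) ∧ Y < 0 := by
  have hPR : (0 : ℝ) < P := by exact_mod_cast hP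
  obtain ⟨h1, h2⟩ := Finset.mem_Icc.1 hY
  have h1' := Int.ceil_le.1 h1
  have h2' := Int.le_floor.1 h2
  unfold loI at h1'
  unfold hiI at h2'
  obtain ⟨h3, h4⟩ := max_le_iff.1 h1'
  obtain ⟨h5, h6⟩ := max_le_iff.1 h3
  have hηP : 0 < η * P := by positivity
  have hYneg : (Y : ℝ) < 0 := by
    have : (P : ℝ) / 2 ≤ X := by linarith
    linarith
  refine ⟨?_, by exact_mod_cast hYneg⟩
  obtain ⟨x, hx⟩ : ∃ x : ℝ, (X : ℝ) = x * P := ⟨X / P, by field_simp⟩
  obtain ⟨y, hy⟩ : ∃ y : ℝ, (Y : ℝ) = y * P := ⟨Y / P, by field_simp⟩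
  rw [hx, hy, mul_div_cancel_right₀ _ hPR.ne', mul_div_cancel_right₀ _ hPR.ne']
  rw [hx] at hX h2' h4 h5 h6
  rw [hy] at h2' h4 h5 h6 hYneg
  have hx0 : 0 ≤ x := by
    have : (0 : ℝ) ≤ x * P := by rw [← hx]; exact Nat.cast_nonneg X
    exact nonneg_of_mul_nonneg_left this hPR
  have hy0 : y < 0 := by
    by_contra hcon
    push Not at hcon
    have : 0 ≤ y * P := mul_nonneg hcon hPR.le
    linarith
  refine ⟨⟨hx0, ?_, ?_⟩, Or.inr (Or.inl ⟨?_, ?_, ?_, ?_⟩)⟩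
  · exact le_of_mul_le_mul_right (by linarith) hPR
  · linarith
  · exact le_of_mul_le_mul_right (by linarith) hPR
  · exact le_of_mul_le_mul_right (by linarith) hPR
  · exact le_of_mul_le_mul_right (by linarith) hPR
  · exact le_of_mul_le_mul_right (by linarith) hPR

lemma mem_fibJ {Y : ℤ} (hP : 0 < P) (hη : 0 < η) (hX : (1/2 + η) * P ≤ (X : ℝ))
    (hY : Y ∈ fibJ η P X) : InS η ((X : ℝ) / P) ((Y : ℝ) / P) ∧ 0 < Y := by
  have hPR : (0 : ℝ) < P := by exact_mod_cast hP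
  obtain ⟨h1, h2⟩ := Finset.mem_Icc.1 hY
  have h1' := Int.ceil_le.1 h1
  have h2' := Int.le_floor.1 h2
  unfold loJ at h1'
  unfold hiJ at h2'
  obtain ⟨h3, h4⟩ := max_le_iff.1 h1'
  obtain ⟨h5, h6⟩ := le_min_iff.1 h2'
  have hηP : 0 < η * P := by positivity
  have hYpos : 0 < (Y : ℝ) := by
    have : (P : ℝ) / 2 ≤ X := by linarith
    linarith
  refine ⟨?_, by exact_mod_cast hYpos⟩
  obtain ⟨x, hx⟩ : ∃ x : ℝ, (X : ℝ) = x * P := ⟨X / P, by field_simp⟩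
  obtain ⟨y, hy⟩ : ∃ y : ℝ, (Y : ℝ) = y * P := ⟨Y / P, by field_simp⟩
  rw [hx, hy, mul_div_cancel_right₀ _ hPR.ne', mul_div_cancel_right₀ _ hPR.ne']
  rw [hx] at hX h3 h4 h5 h6
  rw [hy] at h3 h4 h5 h6 hYpos
  have hx0 : 0 ≤ x := by
    have : (0 : ℝ) ≤ x * P := by rw [← hx]; exact Nat.cast_nonneg X
    exact nonneg_of_mul_nonneg_left this hPR
  have hy0 : 0 < y := by
    by_contra hcon
    push Not at hcon
    have : y * P ≤ 0 := mul_nonpos_of_nonpos_of_nonneg hcon hPR.le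
    linarith
  refine ⟨⟨hx0, ?_, ?_⟩, Or.inr (Or.inr ⟨?_, ?_, ?_, ?_⟩)⟩
  · linarith
  · exact le_of_mul_le_mul_right (by linarith) hPR
  · exact le_of_mul_le_mul_right (by linarith) hPR
  · exact le_of_mul_le_mul_right (by linarith) hPR
  · exact le_of_mul_le_mul_right (by linarith) hPR
  · exact le_of_mul_le_mul_right (by linarith) hPR

end Fibres

end Pool.R3
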