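import Mathlib

/-!
# A subset of the torus `(ℝ/ℤ)²` with a midpoint-convex function: definitions

Lifts `(x, y)` with `0 ≤ x < 1`, `-1/2 < y < 1/2`.
-/

namespace Pool.R3

/-- The points of the cone. -/
def InCone (x y : ℝ) : Prop := 0 ≤ x ∧ -(3/56) - (69/112) * x ≤ y ∧ y ≤ (25/56) * x

/-- core part -/
def InCore (η x y : ℝ) : Prop := x ≤ 1/2 - η ∧ y ≤ 1/2 - 3/56 - (69/112) * x - η

/-- lower sheet for `x > 1/2` -/
def InI (η x y : ℝ) : Prop :=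
  1/2 + η ≤ x ∧ y ≤ -(3/56) - (69/112) * (x - 1/2) - η ∧
    -(1/2) + (25/56) * (x - 1/2) + η ≤ y ∧
    (-(3/56) - (69/112) * (x - 1/2) + (25/56) * x) / 2 - 1/2 + η ≤ y

/-- upper sheet for `x > 1/2` -/
def InJ (η x y : ℝ) : Prop :=
  1/2 + η ≤ x ∧ y ≤ 1/2 - 3/56 - (69/112) * (x - 1/2) - η ∧
    (25/56) * (x - 1/2) + η ≤ y ∧
    (-(3/56) - (69/112) * (x - 1/2) + (25/56) * x) / 2 + η ≤ y

/-- The set (lifted to the plane). -/
def InS (η x y : ℝ) : Prop := InCone x y ∧ (InCore η x y ∨ InI η x y ∨ InJ η x y)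

open Classical in
/-- second coordinate of the doubled point -/
noncomputable def vv (x y : ℝ) : ℝ := if 1/2 < x ∧ 0 < y then 2 * y - 1 else 2 * y

/-- The function. -/
noncomputable def FF (η x y : ℝ) : ℝ := 3 / (2 * η ^ 2) * x ^ 2 + (vv x y) ^ 2

lemma vv_core {η x y : ℝ} (h0 : 0 < η) (h : InCore η x y) : vv x y = 2 * y := by
  unfold vv
  rw [if_neg]
  rintro ⟨h1, -⟩
  have := h.1
  linarith

lemma vv_I {η x y : ℝ} (h0 : 0 < η) (h : InI η x y) : vv x y = 2 * y := by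
  unfold vv
  rw [if_neg]
  rintro ⟨h1, h2⟩
  obtain ⟨a, b, c, d⟩ := h
  linarith

lemma vv_J {η x y : ℝ} (h0 : 0 < η) (h : InJ η x y) : vv x y = 2 * y - 1 := by
  unfold vv
  rw [if_pos]
  obtain ⟨a, b, c, d⟩ := h
  constructor <;> linarith

lemma x_lt_one {η x y : ℝ} (h0 : 0 < η) (h : InS η x y) : 0 ≤ x ∧ x < 1 := by
  obtain ⟨⟨h1, h2, h3⟩, hc | hi | hj⟩ := h
  · exact ⟨h1, by linarith [hc.1]⟩
  · obtain ⟨a, b, c, d⟩ := hi
    exact ⟨h1, by linarith⟩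
  · obtain ⟨a, b, c, d⟩ := hj
    exact ⟨h1, by linarith⟩

lemma y_lt_half {η x y : ℝ} (h0 : 0 < η) (h : InS η x y) : -(1/2) < y ∧ y < 1/2 := by
  obtain ⟨⟨h1, h2, h3⟩, hc | hi | hj⟩ := h
  · obtain ⟨a, b⟩ := hc
    constructor <;> linarith
  · obtain ⟨a, b, c, d⟩ := hi
    constructor <;> linarith
  · obtain ⟨a, b, c, d⟩ := hj
    constructor <;> linarith

lemma vv_bound {η x y : ℝ} (h0 : 0 < η) (h : InS η x y) : (vv x y) ^ 2 ≤ 1 := by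
  have hy := y_lt_half h0 h
  have key : -1 ≤ vv x y ∧ vv x y ≤ 1 := by
    obtain ⟨-, hc | hi | hj⟩ := h
    · rw [vv_core h0 hc]; constructor <;> linarith
    · rw [vv_I h0 hi]; constructor <;> linarith
    · rw [vv_J h0 hj]
      obtain ⟨a, -, c, -⟩ := hj
      constructor <;> linarith
  nlinarith [key.1, key.2]

/-- range of the doubled coordinate on the lower sheet -/
lemma range_I {η x y : ℝ} (h0 : 0 < η) (h : InI η x y) : -1 < 2 * y ∧ 2 * y < 0 := by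
  obtain ⟨a, b, c, -⟩ := h
  constructor <;> linarith

/-- range of the doubled coordinate on the upper sheet -/
lemma range_J {η x y : ℝ} (h0 : 0 < η) (h : InJ η x y) : -1 < 2 * y - 1 ∧ 2 * y - 1 < 0 := by
  obtain ⟨a, b, c, -⟩ := h
  constructor <;> linarith

/-- range of `y` on the core -/
lemma core_y {η x y : ℝ} (hx : 0 ≤ x) (h : InCore η x y) :
    y ≤ 1/2 - 3/56 - (69/112) * x - η := h.2

lemma int_zero_of_lt {n : ℤ} {t : ℝ} (h : t = n) (h1 : -1 < t) (h2 : t < 1) : n = 0 := by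
  have a : (-1 : ℝ) < (n : ℝ) := by rw [← h]; exact h1
  have b : (n : ℝ) < 1 := by rw [← h]; exact h2
  have a' : (-1 : ℤ) < n := by exact_mod_cast a
  have b' : n < 1 := by exact_mod_cast b
  omega

lemma no_int {n : ℤ} {t : ℝ} (h : t = n) (h1 : 0 < t) (h2 : t < 1) : False := by
  have a : (0 : ℝ) < (n : ℝ) := by rw [← h]; exact h1
  have b : (n : ℝ) < 1 := by rw [← h]; exact h2
  have a' : (0 : ℤ) < n := by exact_mod_cast a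
  have b' : n < 1 := by exact_mod_cast b
  omega

/-- If two points are on the right part then the second coordinates are compatible. -/
lemma right_case (v1 v2 v3 : ℝ) (n : ℤ) (j1 j2 j3 : ℤ)
    (hj1 : j1 = 0 ∨ j1 = 1) (hj2 : j2 = 0 ∨ j2 = 1)
    (b1 : -1 < v1 ∧ v1 < 0) (b2 : -1 < v2 ∧ v2 < 0) (b3 : -1 < v3 ∧ v3 < 0)
    (hn : (v1 + v2) / 2 - v3 = n + j3 - (j1 + j2 : ℝ) / 2)
    (hex : j1 + j2 = 1 → ¬ (v3 = (v1 + v2) / 2 - 1 / 2)) :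
    (j1 = j2 ∧ v3 = (v1 + v2) / 2) ∨ 1/2 ≤ v1 ^ 2 + v2 ^ 2 - 2 * v3 ^ 2 := by
  have key : j1 = j2 ∨ j1 + j2 = 1 := by omega
  obtain ⟨b1l, b1r⟩ := b1
  obtain ⟨b2l, b2r⟩ := b2
  obtain ⟨b3l, b3r⟩ := b3
  rcases key with h | h
  · left
    refine ⟨h, ?_⟩
    subst h
    have h2 : (v1 + v2) / 2 - v3 = ((n + j3 - j1 : ℤ) : ℝ) := by
      rw [hn]; push_cast; ring
    have := int_zero_of_lt h2 (by linarith) (by linarith)
    rw [this] at h2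
    push_cast at h2
    linarith
  · right
    have hsum : (j1 : ℝ) + j2 = 1 := by exact_mod_cast h
    rw [hsum] at hn
    have h2 : (v1 + v2) / 2 - v3 + 1/2 = ((n + j3 : ℤ) : ℝ) := by
      rw [hn]; push_cast; ring
    -- value is 0 or 1
    set w : ℤ := n + j3 with hw
    have a1 : (-1 : ℝ) < (w : ℝ) := by rw [← h2]; linarith
    have a2 : (w : ℝ) < 2 := by rw [← h2]; linarith
    have a1' : (-1 : ℤ) < w := by exact_mod_cast a1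
    have a2' : w < 2 := by exact_mod_cast a2
    have hw01 : w = 0 ∨ w = 1 := by omega
    rcases hw01 with hw0 | hw1
    · rw [hw0] at h2
      push_cast at h2
      have h3 : v3 = (v1 + v2) / 2 + 1/2 := by linarith
      have h4 : v1 ^ 2 + v2 ^ 2 - 2 * v3 ^ 2
          = (v1 - v2) ^ 2 / 2 - (v1 + v2) - 1/2 := by rw [h3]; ring
      rw [h4]
      have h5 : v1 + v2 < -1 := by linarith
      have := sq_nonneg (v1 - v2)
      linarith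
    · exfalso
      apply hex h
      rw [hw1] at h2
      push_cast at h2
      linarith

/-- exclusion, third point on the lower sheet -/
lemma hex_I {η x1 y1 x2 y2 x3 y3 : ℝ} (h0 : 0 < η) (hx3 : x3 = (x1 + x2) / 2)
    (hf1 : -(2 * η) < x1 - x2) (hf2 : x1 - x2 < 2 * η)
    (hp : y1 ≤ -(3/56) - (69/112) * (x1 - 1/2) - η) (hq : y2 ≤ (25/56) * x2)
    (hr : (-(3/56) - (69/112) * (x3 - 1/2) + (25/56) * x3) / 2 - 1/2 + η ≤ y3) :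
    ¬ (2 * y3 = y1 + y2 - 1) := by
  intro h
  subst hx3
  linarith

/-- exclusion, third point on the upper sheet -/
lemma hex_J {η x1 y1 x2 y2 x3 y3 : ℝ} (h0 : 0 < η) (hx3 : x3 = (x1 + x2) / 2)
    (hf1 : -(2 * η) < x1 - x2) (hf2 : x1 - x2 < 2 * η)
    (hp : y1 ≤ -(3/56) - (69/112) * (x1 - 1/2) - η) (hq : y2 ≤ (25/56) * x2)
    (hr : (-(3/56) - (69/112) * (x3 - 1/2) + (25/56) * x3) / 2 + η ≤ y3) :
    ¬ (2 * y3 = y1 + y2) := by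
  intro h
  subst hx3
  linarith

/-- The wrapped case: blocked. -/
lemma wrapped {η x1 y1 x2 y2 x3 y3 : ℝ} {n : ℤ} (h0 : 0 < η)
    (s1 : InCone x1 y1) (s2 : InCone x2 y2) (c3 : InCone x3 y3)
    (s3 : InCore η x3 y3 ∨ InI η x3 y3 ∨ InJ η x3 y3)
    (hm : x1 + x2 - 2 * x3 = -1) (hn : y1 + y2 - 2 * y3 = n) : False := by
  obtain ⟨p1, p2, p3⟩ := s1
  obtain ⟨q1, q2, q3⟩ := s2
  rcases s3 with hc | hi | hj
  · have := hc.1
    linarith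
  · obtain ⟨a, b, c, d⟩ := hi
    exact no_int hn (by linarith) (by linarith)
  · obtain ⟨a, b, c, d⟩ := hj
    have hn' : y1 + y2 - 2 * y3 + 1 = ((n + 1 : ℤ) : ℝ) := by rw [hn]; push_cast; ring
    exact no_int hn' (by linarith) (by linarith)

/-- the core case -/
lemma core_case {Λ x1 y1 x2 y2 x3 y3 η : ℝ} {n : ℤ} (h0 : 0 < η)
    (s1 : InCone x1 y1) (s2 : InCone x2 y2) (s3 : InCone x3 y3)
    (c1 : InCore η x1 y1) (c2 : InCore η x2 y2) (c3 : InCore η x3 y3)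
    (hx3 : x3 = (x1 + x2) / 2) (hf1 : -(2 * η) < x1 - x2) (hf2 : x1 - x2 < 2 * η)
    (hn : y1 + y2 - 2 * y3 = n) :
    (Λ * x1 ^ 2 + vv x1 y1 ^ 2 + (Λ * x2 ^ 2 + vv x2 y2 ^ 2) -
      2 * (Λ * x3 ^ 2 + vv x3 y3 ^ 2) = Λ / 2 * (x1 - x2) ^ 2 + 2 * (y1 - y2) ^ 2) := by
  rw [vv_core h0 c1, vv_core h0 c2, vv_core h0 c3]
  have hn0 : n = 0 := by
    obtain ⟨p1, p2, p3⟩ := s1
    obtain ⟨q1, q2, q3⟩ := s2
    obtain ⟨r1, r2, r3⟩ := s3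
    obtain ⟨c1a, c1b⟩ := c1
    obtain ⟨c2a, c2b⟩ := c2
    obtain ⟨c3a, c3b⟩ := c3
    exact int_zero_of_lt hn (by linarith) (by linarith)
  rw [hn0] at hn
  push_cast at hn
  have hy3 : y3 = (y1 + y2) / 2 := by linarith
  rw [hx3, hy3]; ring

/-- the right part -/
lemma right_part {Λ x1 y1 x2 y2 x3 y3 : ℝ} {n : ℤ} (hΛ : 0 ≤ Λ)
    (hx3 : x3 = (x1 + x2) / 2) (hn : y1 + y2 - 2 * y3 = n)
    (v1 v2 v3 : ℝ) (j1 j2 j3 : ℤ) (hj1 : j1 = 0 ∨ j1 = 1) (hj2 : j2 = 0 ∨ j2 = 1)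
    (e1 : vv x1 y1 = v1) (e2 : vv x2 y2 = v2) (e3 : vv x3 y3 = v3)
    (d1 : v1 = 2 * y1 - j1) (d2 : v2 = 2 * y2 - j2) (d3 : v3 = 2 * y3 - j3)
    (b1 : -1 < v1 ∧ v1 < 0) (b2 : -1 < v2 ∧ v2 < 0) (b3 : -1 < v3 ∧ v3 < 0)
    (hex : j1 + j2 = 1 → ¬ (v3 = (v1 + v2) / 2 - 1 / 2)) :
    1/2 ≤ Λ * x1 ^ 2 + vv x1 y1 ^ 2 + (Λ * x2 ^ 2 + vv x2 y2 ^ 2) -
      2 * (Λ * x3 ^ 2 + vv x3 y3 ^ 2) ∨
    Λ * x1 ^ 2 + vv x1 y1 ^ 2 + (Λ * x2 ^ 2 + vv x2 y2 ^ 2) -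
      2 * (Λ * x3 ^ 2 + vv x3 y3 ^ 2) = Λ / 2 * (x1 - x2) ^ 2 + 2 * (y1 - y2) ^ 2 := by
  rw [e1, e2, e3]
  have hn' : (v1 + v2) / 2 - v3 = n + j3 - (j1 + j2 : ℝ) / 2 := by
    rw [d1, d2, d3, ← hn]; ring
  have hsx : Λ * x1 ^ 2 + Λ * x2 ^ 2 - 2 * (Λ * x3 ^ 2) = Λ / 2 * (x1 - x2) ^ 2 := by
    rw [hx3]; ring
  rcases right_case v1 v2 v3 n j1 j2 j3 hj1 hj2 b1 b2 b3 hn' hex with h | h
  · right
    obtain ⟨hj, hv⟩ := h
    have hv12 : v1 - v2 = 2 * (y1 - y2) := by rw [d1, d2, hj]; ring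
    have h3 : v1 ^ 2 + v2 ^ 2 - 2 * v3 ^ 2 = (v1 - v2) ^ 2 / 2 := by rw [hv]; ring
    have h4 : (v1 - v2) ^ 2 / 2 = 2 * (y1 - y2) ^ 2 := by rw [hv12]; ring
    linarith
  · left
    have h3 : 0 ≤ Λ / 2 * (x1 - x2) ^ 2 := by positivity
    linarith

end Pool.R3
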