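import Pool.Agent.Lib.helper69.R3Count
import Pool.Agent.MP_0f71ae_nt.Transfer

/-!
# Density of the planar set and the resulting models
-/

namespace Pool.R3

open Finset

section Sum

variable (η : ℝ) (P : ℕ)

noncomputable def rowsA : Finset ℕ :=
  open Classical in (range P).filter (fun X => (X : ℝ) ≤ (1/2 - η) * P)

noncomputable def rowsD : Finset ℕ :=
  open Classical in
  (range P).filter (fun X => (1/2 + η) * P ≤ (X : ℝ) ∧ (X : ℝ) ≤ (219/238) * P)

lemma mem_rowsA {X : ℕ} : X ∈ rowsA η P ↔ X < P ∧ (X : ℝ) ≤ (1/2 - η) * P := by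
  unfold rowsA; simp

lemma mem_rowsD {X : ℕ} : X ∈ rowsD η P ↔
    X < P ∧ (1/2 + η) * P ≤ (X : ℝ) ∧ (X : ℝ) ≤ (219/238) * P := by
  unfold rowsD; simp

lemma card_rowsA (hη : 0 < η) (hη1 : η ≤ 1/16) (hP : 0 < P) :
    (1/2 - η) * P ≤ ((rowsA η P).card : ℝ) := by
  have hPR : (0 : ℝ) < P := by exact_mod_cast hP
  have hsub : range (⌊(1/2 - η) * (P : ℝ)⌋₊ + 1) ⊆ rowsA η P := by
    intro X hX
    have h1 : X ≤ ⌊(1/2 - η) * (P : ℝ)⌋₊ := Nat.lt_succ_iff.1 (mem_range.1 hX)
    have h2 : (X : ℝ) ≤ (1/2 - η) * P :=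
      (Nat.cast_le.2 h1).trans (Nat.floor_le (by nlinarith))
    rw [mem_rowsA]
    refine ⟨?_, h2⟩
    have : (X : ℝ) < P := by nlinarith
    exact_mod_cast this
  have h := Finset.card_le_card hsub
  rw [Finset.card_range] at h
  have h3 := Nat.lt_floor_add_one ((1/2 - η) * (P : ℝ))
  have h4 : ((⌊(1/2 - η) * (P : ℝ)⌋₊ + 1 : ℕ) : ℝ) ≤ ((rowsA η P).card : ℝ) := by
    exact_mod_cast h
  push_cast at h4
  linarith

lemma card_rowsD (hη : 0 < η) (hP : 0 < P) :
    (50/119 - η) * P - 1 ≤ ((rowsD η P).card : ℝ) := by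
  have hPR : (0 : ℝ) < P := by exact_mod_cast hP
  have hsub : Finset.Icc ⌈(1/2 + η) * (P : ℝ)⌉₊ ⌊(219/238) * (P : ℝ)⌋₊ ⊆ rowsD η P := by
    intro X hX
    obtain ⟨h1, h2⟩ := Finset.mem_Icc.1 hX
    have h1' : (1/2 + η) * (P : ℝ) ≤ X := (Nat.le_ceil _).trans (Nat.cast_le.2 h1)
    have h2' : (X : ℝ) ≤ (219/238) * P :=
      (Nat.cast_le.2 h2).trans (Nat.floor_le (by positivity))
    rw [mem_rowsD]
    refine ⟨?_, h1', h2'⟩
    have : (X : ℝ) < P := by linarith
    exact_mod_cast this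
  have h := Finset.card_le_card hsub
  rw [Nat.card_Icc] at h
  have h3 := Nat.lt_floor_add_one ((219/238) * (P : ℝ))
  have h4 := Nat.ceil_lt_add_one (a := (1/2 + η) * (P : ℝ)) (by positivity)
  have h5 : ((⌊(219/238) * (P : ℝ)⌋₊ + 1 : ℕ) : ℝ) - ((⌈(1/2 + η) * (P : ℝ)⌉₊ : ℕ) : ℝ)
      ≤ ((rowsD η P).card : ℝ) := by
    have h6 : ⌊(219/238) * (P : ℝ)⌋₊ + 1 ≤ (rowsD η P).card + ⌈(1/2 + η) * (P : ℝ)⌉₊ := by omega
    have : ((⌊(219/238) * (P : ℝ)⌋₊ + 1 : ℕ) : ℝ)
        ≤ (((rowsD η P).card + ⌈(1/2 + η) * (P : ℝ)⌉₊ : ℕ) : ℝ) := by exact_mod_cast h6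
    push_cast at this ⊢
    linarith
  push_cast at h5
  linarith

lemma sumA (hη : 0 < η) :
    ((rowsA η P).card : ℝ) * (P/2 - η * P - 1) - ((25/56) * P + ((25/56) * P) ^ 2 / (2 * (17/16)))
      ≤ ∑ X ∈ rowsA η P, ((fibA η P X).card : ℝ) := by
  have h1 : ∑ X ∈ rowsA η P, max ((25/56) * (P : ℝ) - (17/16) * X) 0
      ≤ (25/56) * P + ((25/56) * P) ^ 2 / (2 * (17/16)) := by
    apply tri_sum' (rowsA η P) id (Set.injOn_id _) P
    · intro X hX; exact ((mem_rowsA η P).1 hX).1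
    · positivity
    · norm_num
    · intro X _; simp
  calc _ ≤ ∑ X ∈ rowsA η P, ((P : ℝ)/2 - η * P - 1 - max ((25/56) * (P : ℝ) - (17/16) * X) 0) := by
        rw [Finset.sum_sub_distrib, Finset.sum_const, nsmul_eq_mul]
        linarith
    _ ≤ _ := by
        apply Finset.sum_le_sum
        intro X _
        have := card_fibA η P X hη.le
        linarith

lemma sumD (hη : 0 < η) :
    ((rowsD η P).card : ℝ) * (P/2 - 4 * (η * P) - 2)
      - (1/2) * ((3/28) * P + ((3/28) * P) ^ 2 / (2 * (17/16)))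
      - ((31/112) * P + ((31/112) * P) ^ 2 / (2 * (17/16)))
      - ((25/112) * P + ((25/112) * P) ^ 2 / (2 * (17/16)))
      ≤ ∑ X ∈ rowsD η P, (((fibI η P X).card : ℝ) + ((fibJ η P X).card : ℝ)) := by
  have hP0 : (0 : ℝ) ≤ P := Nat.cast_nonneg P
  have hX0 : ∀ X ∈ rowsD η P, ⌈(1/2 + η) * (P : ℝ)⌉₊ ≤ X := by
    intro X hX
    exact Nat.ceil_le.2 ((mem_rowsD η P).1 hX).2.1
  have hX1 : ∀ X ∈ rowsD η P, X ≤ ⌊(219/238) * (P : ℝ)⌋₊ := by
    intro X hX
    exact Nat.le_floor ((mem_rowsD η P).1 hX).2.2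
  have hceil : (P : ℝ)/2 ≤ (⌈(1/2 + η) * (P : ℝ)⌉₊ : ℝ) := by
    have := Nat.le_ceil ((1/2 + η) * (P : ℝ))
    have : 0 ≤ η * P := by positivity
    linarith
  have hfloor : ((⌊(219/238) * (P : ℝ)⌋₊ : ℕ) : ℝ) ≤ (219/238) * P :=
    Nat.floor_le (by positivity)
  have h1 : ∑ X ∈ rowsD η P, max ((3/28) * (P : ℝ) - (17/16) * ((X : ℝ) - P/2)) 0
      ≤ (3/28) * P + ((3/28) * P) ^ 2 / (2 * (17/16)) := by
    apply tri_sum' (rowsD η P) (fun X => X - ⌈(1/2 + η) * (P : ℝ)⌉₊) _ P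
    · intro X hX
      have := ((mem_rowsD η P).1 hX).1
      omega
    · positivity
    · norm_num
    · intro X hX
      have h := hX0 X hX
      rw [Nat.cast_sub h]
      linarith
    · intro a ha b hb hab
      have h3 := hX0 a ha
      have h4 := hX0 b hb
      simp only at hab
      omega
  have h2 : ∑ X ∈ rowsD η P, max ((17/16) * ((X : ℝ) - P/2) - (19/112) * P) 0
      ≤ (31/112) * P + ((31/112) * P) ^ 2 / (2 * (17/16)) := by
    apply tri_sum' (rowsD η P) (fun X => ⌊(219/238) * (P : ℝ)⌋₊ - X) _ (⌊(219/238) * (P : ℝ)⌋₊ + 1)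
    · intro X hX
      omega
    · positivity
    · norm_num
    · intro X hX
      have h := hX1 X hX
      rw [Nat.cast_sub h]
      linarith
    · intro a ha b hb hab
      have h3 := hX1 a ha
      have h4 := hX1 b hb
      simp only at hab
      omega
  have h3 : ∑ X ∈ rowsD η P, max ((17/16) * ((X : ℝ) - P/2) - (25/112) * P) 0
      ≤ (25/112) * P + ((25/112) * P) ^ 2 / (2 * (17/16)) := by
    apply tri_sum' (rowsD η P) (fun X => ⌊(219/238) * (P : ℝ)⌋₊ - X) _ (⌊(219/238) * (P : ℝ)⌋₊ + 1)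
    · intro X hX
      omega
    · positivity
    · norm_num
    · intro X hX
      have h := hX1 X hX
      rw [Nat.cast_sub h]
      linarith
    · intro a ha b hb hab
      have h3 := hX1 a ha
      have h4 := hX1 b hb
      simp only at hab
      omega
  calc _ ≤ ∑ X ∈ rowsD η P, ((P : ℝ)/2 - 4 * (η * P) - 2
        - (1/2) * max ((3/28) * (P : ℝ) - (17/16) * ((X : ℝ) - P/2)) 0
        - max ((17/16) * ((X : ℝ) - P/2) - (19/112) * P) 0
        - max ((17/16) * ((X : ℝ) - P/2) - (25/112) * P) 0) := by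
        rw [Finset.sum_sub_distrib, Finset.sum_sub_distrib, Finset.sum_sub_distrib,
          Finset.sum_const, nsmul_eq_mul, ← Finset.mul_sum]
        linarith
    _ ≤ _ := by
        apply Finset.sum_le_sum
        intro X _
        have := card_fibIJ η P X hη.le
        linarith

lemma total (hη : 0 < η) (hη1 : η ≤ 1/16) (hP : 40 ≤ P) :
    (579/1904 - 4 * η) * (P : ℝ) ^ 2 - 4 * P ≤
      ∑ X ∈ rowsA η P, ((fibA η P X).card : ℝ) +
      ∑ X ∈ rowsD η P, (((fibI η P X).card : ℝ) + ((fibJ η P X).card : ℝ)) := by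
  have hP0 : 0 < P := by omega
  have hPR : (40 : ℝ) ≤ P := by exact_mod_cast hP
  have h1 := sumA η P hη
  have h2 := sumD η P hη
  have c1 := card_rowsA η P hη hη1 hP0
  have c2 := card_rowsD η P hη hP0
  have e0 : ∀ c : ℝ, c ^ 2 / (2 * (17/16)) = c ^ 2 * (8/17) := by intro c; ring
  simp only [e0] at h1 h2
  set p : ℝ := (P : ℝ) with hp
  have e1 : 0 ≤ p/2 - η * p - 1 := by nlinarith
  have e2 : 0 ≤ p/2 - 4 * (η * p) - 2 := by nlinarith
  have m1 : (1/2 - η) * p * (p/2 - η * p - 1) ≤ ((rowsA η P).card : ℝ) * (p/2 - η * p - 1) :=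
    mul_le_mul_of_nonneg_right c1 e1
  have m2 : ((50/119 - η) * p - 1) * (p/2 - 4 * (η * p) - 2)
      ≤ ((rowsD η P).card : ℝ) * (p/2 - 4 * (η * p) - 2) :=
    mul_le_mul_of_nonneg_right c2 e2
  have n1 : (1/4 - η) * p ^ 2 - p / 2 ≤ (1/2 - η) * p * (p/2 - η * p - 1) := by
    have : (1/2 - η) * p * (p/2 - η * p - 1) = (1/4 - η) * p ^ 2 - p/2 + η ^ 2 * p ^ 2 + η * p := by
      ring
    rw [this]
    have : 0 ≤ η ^ 2 * p ^ 2 := by positivity
    have : 0 ≤ η * p := by positivity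
    linarith
  have n2 : (25/119 - 3 * η) * p ^ 2 - (3/2) * p ≤
      ((50/119 - η) * p - 1) * (p/2 - 4 * (η * p) - 2) := by
    have : ((50/119 - η) * p - 1) * (p/2 - 4 * (η * p) - 2) =
        (25/119 - (200/119 + 1/2) * η) * p ^ 2 + 4 * η ^ 2 * p ^ 2 - (100/119 + 1/2) * p
          + 6 * η * p + 2 := by ring
    rw [this]
    have a1 : 0 ≤ η ^ 2 * p ^ 2 := by positivity
    have a2 : 0 ≤ η * p := by positivity
    have a3 : 0 ≤ η * p ^ 2 := by positivity
    nlinarith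
  linarith

end Sum

section Model

variable (η : ℝ) (P : ℕ)

/-- The finite model. -/
noncomputable def modS (η : ℝ) (P : ℕ) [NeZero P] : Finset (Fin 2 → ZMod P) :=
  open Classical in
  (univ : Finset (Fin 2 → ZMod P)).filter
    (fun v => InS η (((v 0).val : ℝ) / P) (((v 1).valMinAbs : ℝ) / P))

noncomputable def modF (η : ℝ) (P : ℕ) (v : Fin 2 → ZMod P) : ℝ :=
  FF η (((v 0).val : ℝ) / P) (((v 1).valMinAbs : ℝ) / P)

lemma mem_modS {η : ℝ} {P : ℕ} [NeZero P] {v : Fin 2 → ZMod P} :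
    v ∈ modS η P ↔ InS η (((v 0).val : ℝ) / P) (((v 1).valMinAbs : ℝ) / P) := by
  unfold modS; simp

lemma card_modS (η : ℝ) (P : ℕ) [NeZero P] (hη : 0 < η) :
    ∑ X ∈ rowsA η P, (fibA η P X).card + ∑ X ∈ rowsD η P, ((fibI η P X).card + (fibJ η P X).card)
      ≤ (modS η P).card := by
  classical
  have hP : 0 < P := NeZero.pos P
  have hPR : (0 : ℝ) < P := by exact_mod_cast hP
  set F : ℕ → Finset ℤ := fun X => if X ∈ rowsA η P then fibA η P X else
    (if X ∈ rowsD η P then fibI η P X ∪ fibJ η P X else ∅) with hF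
  have hdisj : ∀ X, X ∈ rowsD η P → X ∉ rowsA η P := by
    intro X hX hX'
    have h1 := ((mem_rowsD η P).1 hX).2.1
    have h2 := ((mem_rowsA η P).1 hX').2
    have : 0 < η * P := by positivity
    linarith
  have hIn : ∀ X, X < P → ∀ Y ∈ F X, InS η ((X : ℝ) / P) ((Y : ℝ) / P) := by
    intro X _ Y hY
    simp only [hF] at hY
    split_ifs at hY with h1 h2
    · exact mem_fibA hP ((mem_rowsA η P).1 h1).2 hY
    · rcases Finset.mem_union.1 hY with h | h
      · exact (mem_fibI hP hη ((mem_rowsD η P).1 h2).2.1 h).1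
      · exact (mem_fibJ hP hη ((mem_rowsD η P).1 h2).2.1 h).1
    · simp at hY
  have hcardF : ∑ X ∈ rowsA η P, (fibA η P X).card
      + ∑ X ∈ rowsD η P, ((fibI η P X).card + (fibJ η P X).card) ≤ ∑ X ∈ range P, (F X).card := by
    have hsubA : rowsA η P ⊆ range P := fun X hX => mem_range.2 ((mem_rowsA η P).1 hX).1
    have hsubD : rowsD η P ⊆ range P := fun X hX => mem_range.2 ((mem_rowsD η P).1 hX).1
    have hd : Disjoint (rowsA η P) (rowsD η P) := by
      rw [Finset.disjoint_left]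
      intro X h1 h2
      exact hdisj X h2 h1
    calc _ = ∑ X ∈ rowsA η P, (F X).card + ∑ X ∈ rowsD η P, (F X).card := by
          congr 1
          · apply Finset.sum_congr rfl
            intro X hX
            simp only [hF, if_pos hX]
          · apply Finset.sum_congr rfl
            intro X hX
            simp only [hF, if_neg (hdisj X hX), if_pos hX]
            rw [Finset.card_union_of_disjoint]
            rw [Finset.disjoint_left]
            intro Y hY1 hY2
            have h1 := (mem_fibI hP hη ((mem_rowsD η P).1 hX).2.1 hY1).2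
            have h2 := (mem_fibJ hP hη ((mem_rowsD η P).1 hX).2.1 hY2).2
            omega
      _ = ∑ X ∈ rowsA η P ∪ rowsD η P, (F X).card := (Finset.sum_union hd).symm
      _ ≤ ∑ X ∈ range P, (F X).card :=
          Finset.sum_le_sum_of_subset (Finset.union_subset hsubA hsubD)
  refine hcardF.trans ?_
  rw [← Finset.card_sigma]
  have hbd : ∀ X, X < P → ∀ Y ∈ F X, Y * 2 ∈ Set.Ioc (-(P : ℤ)) P := by
    intro X hX Y hY
    have h := y_lt_half hη (hIn X hX Y hY)
    have h1 : -(P : ℝ) < Y * 2 := by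
      have := h.1
      rw [lt_div_iff₀ hPR] at this
      linarith
    have h2 : (Y : ℝ) * 2 ≤ P := by
      have := h.2
      rw [div_lt_iff₀ hPR] at this
      linarith
    constructor
    · exact_mod_cast h1
    · exact_mod_cast h2
  have hval : ∀ X : ℕ, X < P → ((X : ZMod P)).val = X := fun X hX => ZMod.val_cast_of_lt hX
  have hvma : ∀ X, X < P → ∀ Y ∈ F X, ((Y : ZMod P)).valMinAbs = Y := by
    intro X hX Y hY
    rw [ZMod.valMinAbs_spec]
    exact ⟨rfl, hbd X hX Y hY⟩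
  apply Finset.card_le_card_of_injOn (fun s => ![(s.1 : ZMod P), (s.2 : ZMod P)])
  · intro s hs
    rw [mem_coe, Finset.mem_sigma] at hs
    have hX := mem_range.1 hs.1
    rw [mem_coe, mem_modS]
    simp only [Matrix.cons_val_zero, Matrix.cons_val_one]
    rw [hval s.1 hX, hvma s.1 hX s.2 hs.2]
    exact hIn s.1 hX s.2 hs.2
  · intro s hs t ht hst
    rw [mem_coe, Finset.mem_sigma] at hs ht
    have hs1 := mem_range.1 hs.1
    have ht1 := mem_range.1 ht.1
    have h0 : (s.1 : ZMod P) = (t.1 : ZMod P) := by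
      have := congrFun hst 0
      simpa using this
    have h1 : (s.2 : ZMod P) = (t.2 : ZMod P) := by
      have := congrFun hst 1
      simpa using this
    have e0 : s.1 = t.1 := by
      rw [← hval s.1 hs1, ← hval t.1 ht1, h0]
    have e1 : s.2 = t.2 := by
      rw [← hvma s.1 hs1 s.2 hs.2, ← hvma t.1 ht1 t.2 ht.2, h1]
    obtain ⟨a, b⟩ := s
    obtain ⟨c, d⟩ := t
    simp only at e0 e1
    subst e0
    subst e1
    rfl

open MP0f71ae in
lemma cnorm_le_of_cast {M : ℕ} [NeZero M] (t : ZMod M) (a : ℤ) (h : (a : ZMod M) = t) :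
    cnorm t ≤ |(a : ℝ)| / M := by
  unfold cnorm
  have hM : (0 : ℝ) < M := by exact_mod_cast NeZero.pos M
  apply div_le_div_of_nonneg_right _ hM.le
  have h1 : t.valMinAbs.natAbs ≤ a.natAbs := by
    apply ZMod.natAbs_min_of_le_div_two M
    · rw [ZMod.coe_valMinAbs, h]
    · exact ZMod.natAbs_valMinAbs_le t
  have h2 : ((t.valMinAbs.natAbs : ℕ) : ℝ) ≤ ((a.natAbs : ℕ) : ℝ) := by exact_mod_cast h1
  rw [Nat.cast_natAbs, Nat.cast_natAbs] at h2
  push_cast at h2
  exact h2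

open MP0f71ae in
lemma cnorm_le_half {M : ℕ} [NeZero M] (t : ZMod M) : cnorm t ≤ 1/2 := by
  unfold cnorm
  have hM : (0 : ℝ) < M := by exact_mod_cast NeZero.pos M
  rw [div_le_iff₀ hM]
  have h1 := ZMod.natAbs_valMinAbs_le t
  have h2 : ((t.valMinAbs.natAbs : ℕ) : ℝ) ≤ (M : ℝ) / 2 := by
    have h3 : 2 * t.valMinAbs.natAbs ≤ M := by omega
    have h4 : ((2 * t.valMinAbs.natAbs : ℕ) : ℝ) ≤ M := by exact_mod_cast h3
    push_cast at h4
    push_cast
    linarith
  rw [Nat.cast_natAbs] at h2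
  push_cast at h2
  linarith

open MP0f71ae in
theorem model {η : ℝ} (hη : 0 < η) (hη1 : η ≤ 1/16) (M : ℕ) [NeZero M] (hM : 40 ≤ M) (mu : ℝ)
    (hmu : mu * (M : ℝ) ^ 2 ≤ (579/1904 - 4 * η) * (M : ℝ) ^ 2 - 4 * M) :
    Model 2 M mu (3 / (2 * η ^ 2) + 1) 1 (modS η M) (modF η M) := by
  have hMR : (0 : ℝ) < M := by exact_mod_cast NeZero.pos M
  refine ⟨?_, ?_, ?_, ?_⟩
  · refine hmu.trans ((total η M hη hη1 hM).trans ?_)
    have := card_modS η M hη
    exact_mod_cast this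
  · intro v _
    unfold modF FF
    positivity
  · intro v hv
    have h := mem_modS.1 hv
    have hx := x_lt_one hη h
    have hvv := vv_bound hη h
    unfold modF FF
    have hΛ : (0 : ℝ) < 3 / (2 * η ^ 2) := by positivity
    have : (((v 0).val : ℝ) / M) ^ 2 ≤ 1 := by nlinarith
    nlinarith
  · intro x hx y hy z hz hxz
    have s1 := mem_modS.1 hx
    have s2 := mem_modS.1 hz
    have s3 := mem_modS.1 hy
    have hm : ∃ m : ℤ, (((x 0).val : ℝ) / M) + ((z 0).val : ℝ) / M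
        - 2 * (((y 0).val : ℝ) / M) = m := by
      have h2 : ((((x 0).val : ℤ) + (z 0).val - 2 * (y 0).val : ℤ) : ZMod M) = 0 := by
        push_cast
        have := congrFun hxz 0
        simp only [Pi.add_apply] at this
        rw [ZMod.natCast_zmod_val, ZMod.natCast_zmod_val, ZMod.natCast_zmod_val, this]
        ring
      obtain ⟨m, hm⟩ := (ZMod.intCast_zmod_eq_zero_iff_dvd _ _).1 h2
      refine ⟨m, ?_⟩
      have hm' : (((x 0).val : ℝ) + (z 0).val - 2 * (y 0).val) = M * m := by exact_mod_cast hm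
      field_simp
      linarith
    have hn : ∃ n : ℤ, (((x 1).valMinAbs : ℝ) / M) + ((z 1).valMinAbs : ℝ) / M
        - 2 * (((y 1).valMinAbs : ℝ) / M) = n := by
      have h2 : (((x 1).valMinAbs + (z 1).valMinAbs - 2 * (y 1).valMinAbs : ℤ) : ZMod M) = 0 := by
        push_cast
        have := congrFun hxz 1
        simp only [Pi.add_apply] at this
        rw [this]
        ring
      obtain ⟨m, hm⟩ := (ZMod.intCast_zmod_eq_zero_iff_dvd _ _).1 h2
      refine ⟨m, ?_⟩
      have hm' : (((x 1).valMinAbs : ℝ) + (z 1).valMinAbs - 2 * (y 1).valMinAbs) = M * m := by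
        exact_mod_cast hm
      field_simp
      linarith
    obtain ⟨m, hm⟩ := hm
    obtain ⟨n, hn⟩ := hn
    have key := valid hη (by linarith) s1 s2 s3 m n hm hn
    have hΛ6 : (6 : ℝ) ≤ 3 / (2 * η ^ 2) := by
      rw [le_div_iff₀ (by positivity)]
      nlinarith
    rw [Fin.sum_univ_two, one_mul]
    unfold modF
    rcases key with key | key
    · have a0 := cnorm_le_half (x 0 - z 0)
      have a1 := cnorm_le_half (x 1 - z 1)
      have b0 := cnorm_nonneg (x 0 - z 0)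
      have b1 := cnorm_nonneg (x 1 - z 1)
      nlinarith
    · rw [key]
      have a0 := cnorm_le_of_cast (x 0 - z 0) ((x 0).val - (z 0).val : ℤ) (by
        push_cast; rw [ZMod.natCast_zmod_val, ZMod.natCast_zmod_val])
      have a1 := cnorm_le_of_cast (x 1 - z 1) ((x 1).valMinAbs - (z 1).valMinAbs) (by push_cast; rfl)
      have b0 := cnorm_nonneg (x 0 - z 0)
      have b1 := cnorm_nonneg (x 1 - z 1)
      have c0 : cnorm (x 0 - z 0) ^ 2 ≤ (((x 0).val : ℝ) / M - ((z 0).val : ℝ) / M) ^ 2 := by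
        have : cnorm (x 0 - z 0) ≤ |((x 0).val : ℝ) / M - ((z 0).val : ℝ) / M| := by
          rw [← sub_div, abs_div, abs_of_pos hMR]
          push_cast at a0
          exact a0
        rw [← sq_abs (((x 0).val : ℝ) / M - ((z 0).val : ℝ) / M)]
        exact pow_le_pow_left₀ b0 this 2
      have c1 : cnorm (x 1 - z 1) ^ 2
          ≤ (((x 1).valMinAbs : ℝ) / M - ((z 1).valMinAbs : ℝ) / M) ^ 2 := by
        have : cnorm (x 1 - z 1) ≤ |((x 1).valMinAbs : ℝ) / M - ((z 1).valMinAbs : ℝ) / M| := by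
          rw [← sub_div, abs_div, abs_of_pos hMR]
          push_cast at a1
          exact a1
        rw [← sq_abs (((x 1).valMinAbs : ℝ) / M - ((z 1).valMinAbs : ℝ) / M)]
        exact pow_le_pow_left₀ b1 this 2
      nlinarith [sq_nonneg (((x 0).val : ℝ) / M - ((z 0).val : ℝ) / M),
        sq_nonneg (((x 1).valMinAbs : ℝ) / M - ((z 1).valMinAbs : ℝ) / M)]

end Model

end Pool.R3
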