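import Pool.Agent.Lib.helper69.R3Defs

/-!
# The planar set: the midpoint condition
-/

namespace Pool.R3

/-- The statement for two right points (sheets `I`/`J`). -/
lemma right_sheets {Λ x1 y1 x2 y2 x3 y3 η : ℝ} {n : ℤ} (h0 : 0 < η) (hΛ : 0 ≤ Λ)
    (s1 : InCone x1 y1) (s2 : InCone x2 y2)
    (hp : InI η x1 y1 ∨ InJ η x1 y1) (hq : InI η x2 y2 ∨ InJ η x2 y2)
    (hr : InI η x3 y3 ∨ InJ η x3 y3)
    (hx3 : x3 = (x1 + x2) / 2) (hf1 : -(2 * η) < x1 - x2) (hf2 : x1 - x2 < 2 * η)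
    (hn : y1 + y2 - 2 * y3 = n) :
    1/2 ≤ Λ * x1 ^ 2 + vv x1 y1 ^ 2 + (Λ * x2 ^ 2 + vv x2 y2 ^ 2) -
      2 * (Λ * x3 ^ 2 + vv x3 y3 ^ 2) ∨
    Λ * x1 ^ 2 + vv x1 y1 ^ 2 + (Λ * x2 ^ 2 + vv x2 y2 ^ 2) -
      2 * (Λ * x3 ^ 2 + vv x3 y3 ^ 2) = Λ / 2 * (x1 - x2) ^ 2 + 2 * (y1 - y2) ^ 2 := by
  have hx3' : x3 = (x2 + x1) / 2 := by rw [hx3, add_comm]
  have hf1' : -(2 * η) < x2 - x1 := by linarith
  have hf2' : x2 - x1 < 2 * η := by linarith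
  rcases hp with hp | hp <;> rcases hq with hq | hq <;> rcases hr with hr | hr
  · exact right_part hΛ hx3 hn _ _ _ 0 0 0 (Or.inl rfl) (Or.inl rfl) (vv_I h0 hp) (vv_I h0 hq)
      (vv_I h0 hr) (by push_cast; ring) (by push_cast; ring) (by push_cast; ring)
      (range_I h0 hp) (range_I h0 hq) (range_I h0 hr) (by intro h; omega)
  · exact right_part hΛ hx3 hn _ _ _ 0 0 1 (Or.inl rfl) (Or.inl rfl) (vv_I h0 hp) (vv_I h0 hq)
      (vv_J h0 hr) (by push_cast; ring) (by push_cast; ring) (by push_cast; ring)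
      (range_I h0 hp) (range_I h0 hq) (range_J h0 hr) (by intro h; omega)
  · exact right_part hΛ hx3 hn _ _ _ 0 1 0 (Or.inl rfl) (Or.inr rfl) (vv_I h0 hp) (vv_J h0 hq)
      (vv_I h0 hr) (by push_cast; ring) (by push_cast; ring) (by push_cast; ring)
      (range_I h0 hp) (range_J h0 hq) (range_I h0 hr)
      (fun _ h => hex_I h0 hx3 hf1 hf2 hp.2.1 s2.2.2 hr.2.2.2 (by rw [h]; ring))
  · exact right_part hΛ hx3 hn _ _ _ 0 1 1 (Or.inl rfl) (Or.inr rfl) (vv_I h0 hp) (vv_J h0 hq)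
      (vv_J h0 hr) (by push_cast; ring) (by push_cast; ring) (by push_cast; ring)
      (range_I h0 hp) (range_J h0 hq) (range_J h0 hr)
      (fun _ h => hex_J h0 hx3 hf1 hf2 hp.2.1 s2.2.2 hr.2.2.2
        (by have h' : 2 * y3 = (2 * y1 + (2 * y2 - 1)) / 2 - 1 / 2 + 1 := by rw [← h]; ring
            rw [h']; ring))
  · exact right_part hΛ hx3 hn _ _ _ 1 0 0 (Or.inr rfl) (Or.inl rfl) (vv_J h0 hp) (vv_I h0 hq)
      (vv_I h0 hr) (by push_cast; ring) (by push_cast; ring) (by push_cast; ring)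
      (range_J h0 hp) (range_I h0 hq) (range_I h0 hr)
      (fun _ h => hex_I h0 hx3' hf1' hf2' hq.2.1 s1.2.2 hr.2.2.2 (by rw [h]; ring))
  · exact right_part hΛ hx3 hn _ _ _ 1 0 1 (Or.inr rfl) (Or.inl rfl) (vv_J h0 hp) (vv_I h0 hq)
      (vv_J h0 hr) (by push_cast; ring) (by push_cast; ring) (by push_cast; ring)
      (range_J h0 hp) (range_I h0 hq) (range_J h0 hr)
      (fun _ h => hex_J h0 hx3' hf1' hf2' hq.2.1 s1.2.2 hr.2.2.2
        (by have h' : 2 * y3 = (2 * y1 - 1 + 2 * y2) / 2 - 1 / 2 + 1 := by rw [← h]; ring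
            rw [h']; ring))
  · exact right_part hΛ hx3 hn _ _ _ 1 1 0 (Or.inr rfl) (Or.inr rfl) (vv_J h0 hp) (vv_J h0 hq)
      (vv_I h0 hr) (by push_cast; ring) (by push_cast; ring) (by push_cast; ring)
      (range_J h0 hp) (range_J h0 hq) (range_I h0 hr) (by intro h; omega)
  · exact right_part hΛ hx3 hn _ _ _ 1 1 1 (Or.inr rfl) (Or.inr rfl) (vv_J h0 hp) (vv_J h0 hq)
      (vv_J h0 hr) (by push_cast; ring) (by push_cast; ring) (by push_cast; ring)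
      (range_J h0 hp) (range_J h0 hq) (range_J h0 hr) (by intro h; omega)

lemma x_of_IJ {η x y : ℝ} (h : InI η x y ∨ InJ η x y) : 1/2 + η ≤ x := by
  rcases h with h | h
  · exact h.1
  · exact h.1

/-- the case `x1 + x2 = 2 x3 + 1` -/
lemma one_case {Λ x1 x2 x3 w1 w2 w3 : ℝ} (hΛ6 : 6 ≤ Λ) (X1 : 0 ≤ x1 ∧ x1 < 1)
    (X2 : 0 ≤ x2 ∧ x2 < 1) (X3 : 0 ≤ x3) (hm : x1 + x2 - 2 * x3 = 1)
    (W1 : 0 ≤ w1) (W2 : 0 ≤ w2) (W3 : w3 ≤ 1) :
    1/2 ≤ Λ * x1 ^ 2 + w1 + (Λ * x2 ^ 2 + w2) - 2 * (Λ * x3 ^ 2 + w3) := by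
  obtain ⟨a1, a2⟩ := X1
  obtain ⟨b1, b2⟩ := X2
  have hx3 : x3 = (x1 + x2 - 1) / 2 := by linarith
  have h4 : 1 / 2 ≤ x1 ^ 2 + x2 ^ 2 - 2 * x3 ^ 2 := by
    have h5 : x1 ^ 2 + x2 ^ 2 - 2 * x3 ^ 2
        = (x1 - x2) ^ 2 / 2 + (x1 + x2) - 1/2 := by rw [hx3]; ring
    rw [h5]
    have := sq_nonneg (x1 - x2)
    linarith
  have h6 : Λ * (1/2) ≤ Λ * (x1 ^ 2 + x2 ^ 2 - 2 * x3 ^ 2) :=
    mul_le_mul_of_nonneg_left h4 (by linarith)
  have h7 : Λ * (x1 ^ 2 + x2 ^ 2 - 2 * x3 ^ 2)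
      = Λ * x1 ^ 2 + Λ * x2 ^ 2 - 2 * (Λ * x3 ^ 2) := by ring
  linarith

/-- the case of distant `x1, x2` -/
lemma far_case {Λ η x1 x2 x3 w1 w2 w3 : ℝ} (hΛ : 0 ≤ Λ) (hΛη : Λ * η ^ 2 = 3 / 2) (h0 : 0 < η)
    (hx3 : x3 = (x1 + x2) / 2) (hfar : 2 * η ≤ |x1 - x2|)
    (W1 : 0 ≤ w1) (W2 : 0 ≤ w2) (W3 : w3 ≤ 1) :
    1/2 ≤ Λ * x1 ^ 2 + w1 + (Λ * x2 ^ 2 + w2) - 2 * (Λ * x3 ^ 2 + w3) := by
  have hsq : 4 * η ^ 2 ≤ (x1 - x2) ^ 2 := by
    rw [← sq_abs (x1 - x2)]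
    nlinarith [abs_nonneg (x1 - x2)]
  have h2 : Λ * x1 ^ 2 + Λ * x2 ^ 2 - 2 * (Λ * x3 ^ 2) = Λ * (x1 - x2) ^ 2 / 2 := by
    rw [hx3]; ring
  have h3 : 6 ≤ Λ * (x1 - x2) ^ 2 := by
    calc (6 : ℝ) = 4 * (Λ * η ^ 2) := by rw [hΛη]; norm_num
      _ = Λ * (4 * η ^ 2) := by ring
      _ ≤ Λ * (x1 - x2) ^ 2 := mul_le_mul_of_nonneg_left hsq hΛ
  linarith

theorem valid {η : ℝ} (h0 : 0 < η) (h1 : η ≤ 1/2) {x1 y1 x2 y2 x3 y3 : ℝ}
    (s1 : InS η x1 y1) (s2 : InS η x2 y2) (s3 : InS η x3 y3) (m n : ℤ)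
    (hm : x1 + x2 - 2 * x3 = m) (hn : y1 + y2 - 2 * y3 = n) :
    1/2 ≤ FF η x1 y1 + FF η x2 y2 - 2 * FF η x3 y3 ∨
      FF η x1 y1 + FF η x2 y2 - 2 * FF η x3 y3
        = 3 / (2 * η ^ 2) / 2 * (x1 - x2) ^ 2 + 2 * (y1 - y2) ^ 2 := by
  have X1 := x_lt_one h0 s1
  have X2 := x_lt_one h0 s2
  have X3 := x_lt_one h0 s3
  have V3 := vv_bound h0 s3
  have V1 := sq_nonneg (vv x1 y1)
  have V2 := sq_nonneg (vv x2 y2)
  set Λ : ℝ := 3 / (2 * η ^ 2) with hΛ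
  have hη2 : 0 < η ^ 2 := by positivity
  have hΛη : Λ * η ^ 2 = 3 / 2 := by rw [hΛ]; field_simp
  have hΛpos : 0 ≤ Λ := by positivity
  have hΛ6 : 6 ≤ Λ := by
    rw [hΛ, le_div_iff₀ (by positivity)]
    nlinarith
  have hmrange : m = -1 ∨ m = 0 ∨ m = 1 := by
    have a1 : (-2 : ℝ) < (m : ℝ) := by rw [← hm]; linarith [X1.1, X1.2, X2.1, X2.2, X3.1, X3.2]
    have a2 : (m : ℝ) < 2 := by rw [← hm]; linarith [X1.1, X1.2, X2.1, X2.2, X3.1, X3.2]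
    have a1' : (-2 : ℤ) < m := by exact_mod_cast a1
    have a2' : m < 2 := by exact_mod_cast a2
    omega
  unfold FF
  rw [← hΛ]
  rcases hmrange with hm' | hm' | hm'
  · -- wrapped: blocked
    exfalso
    rw [hm'] at hm
    push_cast at hm
    exact wrapped h0 s1.1 s2.1 s3.1 s3.2 hm hn
  · -- unwrapped in x
    rw [hm'] at hm
    push_cast at hm
    have hx3 : x3 = (x1 + x2) / 2 := by linarith
    by_cases hfar : 2 * η ≤ |x1 - x2|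
    · left
      exact far_case hΛpos hΛη h0 hx3 hfar V1 V2 V3
    · push Not at hfar
      obtain ⟨hf1, hf2⟩ := abs_lt.1 hfar
      clear hfar V1 V2 V3 X1 X2 X3 hΛη hΛ6 hη2 h1
      obtain ⟨c1, hp⟩ := s1
      obtain ⟨c2, hq⟩ := s2
      obtain ⟨c3, hr⟩ := s3
      rcases hp with hp | hp
      · rcases hq with hq | hq
        · rcases hr with hr | hr
          · right; exact core_case h0 c1 c2 c3 hp hq hr hx3 hf1 hf2 hn
          · exfalso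
            have h2 := hp.1
            have h3 := hq.1
            have h4 := x_of_IJ hr
            clear hp hq hr
            linarith
        · exfalso
          have h2 := hp.1
          have h3 := x_of_IJ hq
          clear hp hq hr
          linarith
      · rcases hq with hq | hq
        · exfalso
          have h2 := x_of_IJ hp
          have h3 := hq.1
          clear hp hq hr
          linarith
        · rcases hr with hr | hr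
          · exfalso
            have h2 := x_of_IJ hp
            have h3 := x_of_IJ hq
            have h4 := hr.1
            clear hp hq hr
            linarith
          · exact right_sheets h0 hΛpos c1 c2 hp hq hr hx3 hf1 hf2 hn
  · -- x1 + x2 = 2 x3 + 1
    left
    rw [hm'] at hm
    push_cast at hm
    exact one_case hΛ6 X1 X2 X3.1 hm V1 V2 V3

end Pool.R3
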